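import Pool.Agent.U20.DN.Cut

/-!
# Gap problems for decomposable circuits
-/

set_option autoImplicit false

open Finset

namespace Pool.Agent.U20.DN

variable {V Al : Type} [Fintype V]

/-- The mixture of the inputs `z (b j)`, the `j`-th one on the `j`-th part. -/
def mix {t : ℕ} {U : Type} (p : V → Fin t) (z : U → V → Al) (b : Fin t → U) (v : V) : Al :=
  z (b (p v)) v

omit [Fintype V] in
/-- A finite set is divided into small pieces. -/
theorem exists_chunks (F : Finset V) {m : ℕ} (hm : 1 ≤ m) :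
    ∃ q : V → ℕ, (∀ v ∈ F, m * q v ≤ F.card) ∧
      ∀ (j : ℕ) (S : Finset V), S ⊆ F → (∀ v ∈ S, q v = j) → S.card ≤ m := by
  classical
  obtain ⟨e⟩ : Nonempty (F ≃ Fin F.card) := ⟨F.equivFin⟩
  refine ⟨fun v => if h : v ∈ F then (e ⟨v, h⟩).val / m else 0, fun v hv => ?_,
    fun j S hS hj => ?_⟩
  · dsimp only
    rw [dif_pos hv]
    exact (Nat.mul_div_le _ _).trans (e ⟨v, hv⟩).2.le
  · have h1 : S.card ≤ (Ico (m * j) (m * j + m)).card := by
      refine card_le_card_of_injOn (fun v => if h : v ∈ F then (e ⟨v, h⟩).val else 0)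
        (fun v hv => ?_) (fun v hv w hw hvw => ?_)
      · have hv' := hS (mem_coe.1 hv)
        have h2 := hj v (mem_coe.1 hv)
        dsimp only at h2 ⊢
        rw [dif_pos hv'] at h2
        rw [dif_pos hv', mem_coe, mem_Ico]
        have h3 := Nat.mul_div_le (e ⟨v, hv'⟩).val m
        have h4 := Nat.lt_mul_div_succ (e ⟨v, hv'⟩).val (show 0 < m by omega)
        rw [h2] at h3 h4
        rw [Nat.mul_succ] at h4
        exact ⟨h3, h4⟩
      · have hv' := hS (mem_coe.1 hv)
        have hw' := hS (mem_coe.1 hw)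
        dsimp only at hvw
        rw [dif_pos hv', dif_pos hw'] at hvw
        have h2 := e.injective (Fin.ext hvw)
        exact congrArg Subtype.val h2
    rw [Nat.card_Ico] at h1
    omega

/-- The partition belonging to a list of disjoint sets. -/
theorem exists_partition {θ t : ℕ} (hθ : 1 ≤ θ) (hE : 3 * Fintype.card V + 2 * θ ≤ θ * t)
    (L : List (Finset V)) (hL : L.Pairwise Disjoint) (h1 : ∀ P ∈ L, P.card ≤ 2 * θ)
    (h2 : θ * L.length ≤ 2 * Fintype.card V + θ) :
    L.length ≤ t ∧ ∃ p : V → Fin t, (∀ j, (univ.filter (fun v => p v = j)).card ≤ 2 * θ) ∧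
      ∀ P ∈ L, ∃ j : Fin t, ∀ v ∈ P, p v = j := by
  classical
  have hlt : L.length ≤ t := by
    refine Nat.le_of_mul_le_mul_left (c := θ) ?_ hθ
    omega
  refine ⟨hlt, ?_⟩
  obtain ⟨F, hF⟩ : ∃ F, F = univ.filter (fun v : V => ¬ ∃ i : Fin L.length, v ∈ L.get i) :=
    ⟨_, rfl⟩
  obtain ⟨q, hq1, hq2⟩ := exists_chunks F (show 1 ≤ 2 * θ by omega)
  have hb : ∀ v ∈ F, L.length + q v < t := by
    intro v hv
    have h3 := hq1 v hv
    have h4 : F.card ≤ Fintype.card V := card_le_univ F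
    refine Nat.lt_of_mul_lt_mul_left (a := 2 * θ) ?_
    have e1 : 2 * θ * (L.length + q v) = 2 * (θ * L.length) + 2 * θ * q v := by ring
    have e2 : 2 * θ * t = 2 * (θ * t) := by ring
    rw [e1, e2]
    omega
  have hp : ∀ v : V, ∃ j : Fin t,
      (∀ i : Fin L.length, v ∈ L.get i → j.val = i.val) ∧ (v ∈ F → j.val = L.length + q v) := by
    intro v
    by_cases hv : ∃ i : Fin L.length, v ∈ L.get i
    · obtain ⟨i, hi⟩ := hv
      refine ⟨⟨i.val, lt_of_lt_of_le i.2 hlt⟩, fun i' hi' => ?_, fun hvF => ?_⟩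
      · by_contra hne
        rw [List.pairwise_iff_get] at hL
        rcases lt_or_gt_of_ne (show i ≠ i' from fun h => hne (congrArg Fin.val h)) with h | h
        · exact disjoint_left.1 (hL i i' h) hi hi'
        · exact disjoint_left.1 (hL i' i h) hi' hi
      · rw [hF, mem_filter] at hvF
        exact absurd ⟨i, hi⟩ hvF.2
    · have hvF : v ∈ F := by
        rw [hF, mem_filter]
        exact ⟨mem_univ v, hv⟩
      exact ⟨⟨L.length + q v, hb v hvF⟩, fun i hi => absurd ⟨i, hi⟩ hv, fun _ => rfl⟩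
  choose p hp1 hp2 using hp
  have hcov : ∀ v : V, v ∈ F ∨ ∃ i : Fin L.length, v ∈ L.get i := by
    intro v
    by_cases hv : ∃ i : Fin L.length, v ∈ L.get i
    · exact Or.inr hv
    · left
      rw [hF, mem_filter]
      exact ⟨mem_univ v, hv⟩
  refine ⟨p, fun j => ?_, fun P hP => ?_⟩
  · rcases Nat.lt_or_ge j.val L.length with hj | hj
    · refine le_trans (card_le_card fun v hv => ?_) (h1 (L.get ⟨j.val, hj⟩) (List.get_mem _ _))
      rw [mem_filter] at hv
      rcases hcov v with h | ⟨i, hi⟩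
      · have := hp2 v h
        rw [hv.2] at this
        omega
      · have h3 := hp1 v i hi
        rw [hv.2] at h3
        have h4 : i = ⟨j.val, hj⟩ := Fin.ext h3.symm
        rwa [h4] at hi
    · refine hq2 (j.val - L.length) _ (fun v hv => ?_) (fun v hv => ?_)
      · rw [mem_filter] at hv
        rcases hcov v with h | ⟨i, hi⟩
        · exact h
        · have h3 := hp1 v i hi
          rw [hv.2] at h3
          have := i.2
          omega
      · rw [mem_filter] at hv
        rcases hcov v with h | ⟨i, hi⟩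
        · have := hp2 v h
          rw [hv.2] at this
          omega
        · have h3 := hp1 v i hi
          rw [hv.2] at h3
          have := i.2
          omega
  · obtain ⟨i, hi⟩ := List.get_of_mem hP
    refine ⟨⟨i.val, lt_of_lt_of_le i.2 hlt⟩, fun v hv => ?_⟩
    exact Fin.ext (hp1 v i (by rw [hi]; exact hv))

/-- Random decomposable circuits on gap problems. -/
theorem rand_dnnf (μ : ℕ) (R : Type) [Fintype R] [Nonempty R]
    (I : R → Type) [∀ ρ, Fintype (I ρ)] (G : ∀ ρ, I ρ → Gate V Al (I ρ)) (r : ∀ ρ, I ρ)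
    (hd : ∀ ρ, Decomposable (G ρ)) {θ t : ℕ} (hθ : 1 ≤ θ)
    (hE : 3 * Fintype.card V + 2 * θ ≤ θ * t)
    {U : Type} [Fintype U] [Nonempty U] (z : U → V → Al) (Y : Finset U) {η : ℕ}
    (hY : Fintype.card U ≤ 2 ^ η * Y.card)
    (hc : ∀ A ∈ Y, Nat.card R ≤ 2 ^ μ * Nat.card {ρ // Acc (G ρ) (z A) (r ρ)})
    {N : ℕ} (hmix : ∀ (ρ : R) (p : V → Fin t),
      (∀ j, (univ.filter (fun v => p v = j)).card ≤ 2 * θ) → ∃ B : Finset (Fin t → U),
        (∀ b, Acc (G ρ) (mix p z b) (r ρ) → b ∈ B) ∧ B.card * N ≤ Fintype.card U ^ t) :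
    ∃ ρ, N ≤ (2 ^ (μ + η) * Fintype.card (I ρ) ^ (2 * t)) ^ t := by
  classical
  -- a circuit which accepts many inputs
  obtain ⟨ρ, hρ⟩ : ∃ ρ : R, Y.card ≤ 2 ^ μ *
      (univ.filter (fun A : U => Acc (G ρ) (z A) (r ρ))).card := by
    by_contra hcon
    push Not at hcon
    have h3 : ∑ ρ : R, 2 ^ μ * (univ.filter (fun A : U => Acc (G ρ) (z A) (r ρ))).card <
        Fintype.card R * Y.card := by
      calc _ < ∑ _ρ : R, Y.card := sum_lt_sum_of_nonempty univ_nonempty (fun ρ _ => hcon ρ)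
        _ = _ := by rw [sum_const, card_univ, smul_eq_mul]
    have h4 : Fintype.card R * Y.card ≤ ∑ ρ : R, 2 ^ μ *
        (univ.filter (fun A : U => Acc (G ρ) (z A) (r ρ))).card := by
      have h5 : ∑ ρ : R, (univ.filter (fun A : U => Acc (G ρ) (z A) (r ρ))).card =
          ∑ A : U, (univ.filter (fun ρ : R => Acc (G ρ) (z A) (r ρ))).card := by
        simp only [card_filter]
        exact sum_comm
      rw [← mul_sum, h5, mul_sum, mul_comm, ← smul_eq_mul, ← sum_const]
      refine le_trans (sum_le_sum (fun A hA => ?_)) (sum_le_sum_of_subset (subset_univ Y))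
      have h6 := hc A hA
      rw [Nat.card_eq_fintype_card, Nat.card_eq_fintype_card, Fintype.card_subtype] at h6
      exact h6
    omega
  refine ⟨ρ, ?_⟩
  obtain ⟨S, hS⟩ : ∃ S, S = univ.filter (fun A : U => Acc (G ρ) (z A) (r ρ)) := ⟨_, rfl⟩
  rw [← hS] at hρ
  have hU := Fintype.card_pos (α := U)
  have hUS : Fintype.card U ≤ 2 ^ (μ + η) * S.card := by
    calc Fintype.card U ≤ 2 ^ η * Y.card := hY
      _ ≤ 2 ^ η * (2 ^ μ * S.card) := Nat.mul_le_mul_left _ hρ
      _ = _ := by rw [pow_add]; ring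
  have hSne : S.Nonempty := by
    rw [← card_pos]
    rcases Nat.eq_zero_or_pos S.card with h0 | h0
    · rw [h0, mul_zero] at hUS
      omega
    · exact h0
  obtain ⟨Y', L, c1, c2, c3, c4, c5, c6, c7⟩ := decomp hθ z (r ρ) _ (G ρ) (hd ρ) le_rfl S hSne
    (fun A hA => by
      rw [hS, mem_filter] at hA
      exact hA.2)
  have hvr : (vrs (G ρ) (r ρ)).card ≤ Fintype.card V := card_le_univ _
  obtain ⟨hlt, p, hp1, hp2⟩ := exists_partition hθ hE L c4 (fun P hP => (c5 P hP).1)
    (by omega)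
  obtain ⟨B, hB1, hB2⟩ := hmix ρ p hp1
  have hsub : Fintype.piFinset (fun _ : Fin t => Y') ⊆ B := by
    intro b hb
    rw [Fintype.mem_piFinset] at hb
    refine hB1 b (c7 _ fun P hP => ?_)
    obtain ⟨j, hj⟩ := hp2 P hP
    refine ⟨b j, hb j, fun v hv => ?_⟩
    unfold mix
    rw [hj v hv]
  have hcard := card_le_card hsub
  rw [Fintype.card_piFinset, prod_const, card_univ, Fintype.card_fin] at hcard
  obtain ⟨s, hs⟩ : ∃ s, s = Fintype.card (I ρ) := ⟨_, rfl⟩
  rw [← hs] at c3 ⊢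
  have hs1 : 1 ≤ s := by
    rw [hs]
    exact Fintype.card_pos_iff.2 ⟨r ρ⟩
  have hSY : S.card ≤ s ^ (2 * t) * Y'.card := by
    refine c3.trans (Nat.mul_le_mul_right _ ?_)
    rw [← pow_mul]
    exact Nat.pow_le_pow_right hs1 (by omega)
  have hY'1 : 0 < Y'.card ^ t := Nat.pow_pos (card_pos.2 c2)
  refine Nat.le_of_mul_le_mul_right (c := Y'.card ^ t) ?_ hY'1
  calc N * Y'.card ^ t = Y'.card ^ t * N := mul_comm _ _
    _ ≤ B.card * N := Nat.mul_le_mul_right _ hcard
    _ ≤ Fintype.card U ^ t := hB2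
    _ ≤ (2 ^ (μ + η) * (s ^ (2 * t) * Y'.card)) ^ t :=
        Nat.pow_le_pow_left (hUS.trans (Nat.mul_le_mul_left _ hSY)) _
    _ = _ := by rw [← mul_assoc, mul_pow (2 ^ (μ + η) * s ^ (2 * t)) Y'.card t]

end Pool.Agent.U20.DN
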