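import Pool.Agent.U20.DN.Cut

/-!
# Decomposable circuits which try all witnesses
-/

set_option autoImplicit false

open Finset

namespace Pool.Agent.U20.DN

variable {V Al S : Type} [Fintype V]

/-- The gates. -/
abbrev UI (V S : Type) [Fintype V] : Type := Option (S × (Fin (Fintype.card V + 1) ⊕ V))

open Classical in
/-- The circuit: guess a witness `s` and test all variables. -/
noncomputable def ub (φ : S → V → Al → Prop) : UI V S → Gate V Al (UI V S)
  | none => .disj {i | ∃ s, i = some (s, Sum.inl 0)}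
  | some (s, Sum.inl k) =>
    if h : k.val < Fintype.card V then
      .conj (some (s, Sum.inr ((Fintype.equivFin V).symm ⟨k.val, h⟩)))
        (some (s, Sum.inl ⟨k.val + 1, Nat.succ_lt_succ h⟩))
    else .triv
  | some (s, Sum.inr v) => .leaf v {a | φ s v a}

theorem ub_chain (φ : S → V → Al → Prop) (s : S) {k : ℕ} (h : k < Fintype.card V) :
    ub φ (some (s, Sum.inl ⟨k, Nat.lt_succ_of_lt h⟩)) =
      .conj (some (s, Sum.inr ((Fintype.equivFin V).symm ⟨k, h⟩)))
        (some (s, Sum.inl ⟨k + 1, Nat.succ_lt_succ h⟩)) := by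
  show (if h : k < Fintype.card V then _ else _) = _
  rw [dif_pos h]

theorem ub_end (φ : S → V → Al → Prop) (s : S) :
    ub φ (some (s, Sum.inl ⟨Fintype.card V, Nat.lt_succ_self _⟩)) = .triv := by
  show (if h : Fintype.card V < Fintype.card V then _ else _) = _
  rw [dif_neg (lt_irrefl _)]

/-- The index of a variable. -/
noncomputable def idx (v : V) : ℕ := (Fintype.equivFin V v).val

theorem occurs_leaf {φ : S → V → Al → Prop} {s : S} {v w : V}
    (h : Occurs (ub φ) (some (s, Sum.inr v)) w) : w = v := by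
  rcases occurs_cases h with ⟨P, hP⟩ | ⟨c, hc, -⟩
  · have : ub φ (some (s, Sum.inr v)) = .leaf v {a | φ s v a} := rfl
    rw [this] at hP
    simp only [Gate.leaf.injEq] at hP
    exact hP.1.symm
  · have : ub φ (some (s, Sum.inr v)) = .leaf v {a | φ s v a} := rfl
    rcases hc with ⟨k, hk⟩ | ⟨k, hk⟩ | ⟨D, hD, -⟩
    · rw [this] at hk; exact absurd hk (by simp)
    · rw [this] at hk; exact absurd hk (by simp)
    · rw [this] at hD; exact absurd hD (by simp)

theorem occurs_chain {φ : S → V → Al → Prop} {s : S} {w : V} :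
    ∀ (d k : ℕ) (h : k ≤ Fintype.card V), Fintype.card V - k = d →
      Occurs (ub φ) (some (s, Sum.inl ⟨k, Nat.lt_succ_of_le h⟩)) w → k ≤ idx w := by
  intro d
  induction d with
  | zero =>
    intro k h hd ho
    have hk : k = Fintype.card V := by omega
    subst hk
    have h1 := mem_vrs.2 ho
    rw [vrs_triv (ub_end φ s)] at h1
    exact absurd h1 (notMem_empty _)
  | succ d ih =>
    intro k h hd ho
    have hk : k < Fintype.card V := by omega
    have hg := ub_chain φ s hk
    rcases occurs_cases ho with ⟨P, hP⟩ | ⟨c, hc, hw⟩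
    · rw [hg] at hP; exact absurd hP (by simp)
    · rcases hc with ⟨k', hk'⟩ | ⟨k', hk'⟩ | ⟨D, hD, -⟩
      · rw [hg] at hk'
        simp only [Gate.conj.injEq] at hk'
        rw [← hk'.1] at hw
        rw [occurs_leaf hw]
        unfold idx
        rw [Equiv.apply_symm_apply]
      · rw [hg] at hk'
        simp only [Gate.conj.injEq] at hk'
        rw [← hk'.2] at hw
        have := ih (k + 1) hk (by omega) hw
        omega
      · rw [hg] at hD; exact absurd hD (by simp)

theorem ub_decomposable (φ : S → V → Al → Prop) : Decomposable (ub φ) := by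
  intro i j k hi v hv
  match i with
  | none => exact absurd hi (by unfold ub; simp)
  | some (s, Sum.inr w) => exact absurd hi (by unfold ub; simp)
  | some (s, Sum.inl ⟨m, hm⟩) =>
    rcases Nat.lt_or_ge m (Fintype.card V) with h | h
    · rw [ub_chain φ s h] at hi
      simp only [Gate.conj.injEq] at hi
      obtain ⟨h1, h2⟩ := hv
      rw [← hi.1] at h1
      rw [← hi.2] at h2
      have h3 := occurs_chain _ (m + 1) h rfl h2
      rw [occurs_leaf h1] at h3
      unfold idx at h3
      rw [Equiv.apply_symm_apply] at h3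
      simp at h3
    · have hm' : m = Fintype.card V := by omega
      subst hm'
      rw [ub_end φ s] at hi
      exact absurd hi (by simp)

omit [Fintype V] in
theorem acc_cases {I : Type} {G : I → Gate V Al I} {x : V → Al} {i : I} (h : Acc G x i) :
    (∃ v P, G i = .leaf v P ∧ x v ∈ P) ∨ G i = .triv ∨
      (∃ j k, G i = .conj j k ∧ Acc G x j ∧ Acc G x k) ∨
      ∃ D j, G i = .disj D ∧ j ∈ D ∧ Acc G x j := by
  cases h with
  | leaf _ v P hG hx => exact Or.inl ⟨v, P, hG, hx⟩
  | triv _ hG => exact Or.inr (Or.inl hG)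
  | conj _ j k hG hj hk => exact Or.inr (Or.inr (Or.inl ⟨j, k, hG, hj, hk⟩))
  | disj _ D j hG hD hj => exact Or.inr (Or.inr (Or.inr ⟨D, j, hG, hD, hj⟩))

theorem acc_leaf_iff {φ : S → V → Al → Prop} {s : S} {v : V} {x : V → Al} :
    Acc (ub φ) x (some (s, Sum.inr v)) ↔ φ s v (x v) := by
  have hg : ub φ (some (s, Sum.inr v)) = .leaf v {a | φ s v a} := rfl
  constructor
  · intro h
    rcases acc_cases h with ⟨w, P, h1, h2⟩ | h1 | ⟨j, k, h1, -⟩ | ⟨D, j, h1, -⟩
    · rw [hg] at h1
      simp only [Gate.leaf.injEq] at h1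
      obtain ⟨rfl, rfl⟩ := h1
      exact h2
    · rw [hg] at h1; exact absurd h1 (by simp)
    · rw [hg] at h1; exact absurd h1 (by simp)
    · rw [hg] at h1; exact absurd h1 (by simp)
  · intro h
    exact .leaf _ v _ hg h

theorem acc_chain_iff {φ : S → V → Al → Prop} {s : S} {x : V → Al} :
    ∀ (d k : ℕ) (h : k ≤ Fintype.card V), Fintype.card V - k = d →
      (Acc (ub φ) x (some (s, Sum.inl ⟨k, Nat.lt_succ_of_le h⟩)) ↔
        ∀ v, k ≤ idx v → φ s v (x v)) := by
  intro d
  induction d with
  | zero =>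
    intro k h hd
    have hk : k = Fintype.card V := by omega
    subst hk
    refine ⟨fun _ v hv => ?_, fun _ => .triv _ (ub_end φ s)⟩
    have := (Fintype.equivFin V v).2
    unfold idx at hv
    omega
  | succ d ih =>
    intro k h hd
    have hk : k < Fintype.card V := by omega
    have hg := ub_chain φ s hk
    have h3 := ih (k + 1) hk (by omega)
    constructor
    · intro ha
      rcases acc_cases ha with ⟨w, P, h1, h2⟩ | h1 | ⟨j, k', h1, hj, hk'⟩ | ⟨D, j, h1, -⟩
      · rw [hg] at h1; exact absurd h1 (by simp)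
      · rw [hg] at h1; exact absurd h1 (by simp)
      · rw [hg] at h1
        simp only [Gate.conj.injEq] at h1
        rw [← h1.1, acc_leaf_iff] at hj
        rw [← h1.2, h3] at hk'
        intro v hv
        rcases Nat.eq_or_lt_of_le hv with h4 | h4
        · have h5 : (Fintype.equivFin V).symm ⟨k, hk⟩ = v := by
            rw [Equiv.symm_apply_eq]
            exact Fin.ext h4
          rw [h5] at hj
          exact hj
        · exact hk' v h4
      · rw [hg] at h1; exact absurd h1 (by simp)
    · intro hall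
      refine .conj _ _ _ hg (acc_leaf_iff.2 (hall _ ?_)) (h3.2 fun v hv => hall v (by omega))
      unfold idx
      rw [Equiv.apply_symm_apply]

/-- The predicates with a witness which is tested for each variable separately. -/
theorem ub_acc (φ : S → V → Al → Prop) (x : V → Al) :
    Acc (ub φ) x none ↔ ∃ s, ∀ v, φ s v (x v) := by
  have h0 : (⟨0, Nat.lt_succ_of_le (Nat.zero_le _)⟩ : Fin (Fintype.card V + 1)) = 0 := rfl
  have h1 : ∀ s, Acc (ub φ) x (some (s, Sum.inl 0)) ↔ ∀ v, φ s v (x v) := by
    intro s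
    rw [← h0, acc_chain_iff _ 0 (Nat.zero_le _) rfl]
    exact ⟨fun h v => h v (Nat.zero_le _), fun h v _ => h v⟩
  have hg : ub φ none = .disj {i | ∃ s, i = some (s, Sum.inl 0)} := rfl
  constructor
  · intro h
    rcases acc_cases h with ⟨w, P, h1', -⟩ | h1' | ⟨j, k', h1', -⟩ | ⟨D, j, h1', h2, h3⟩
    · rw [hg] at h1'; exact absurd h1' (by simp)
    · rw [hg] at h1'; exact absurd h1' (by simp)
    · rw [hg] at h1'; exact absurd h1' (by simp)
    · rw [hg] at h1'
      simp only [Gate.disj.injEq] at h1'
      rw [← h1'] at h2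
      obtain ⟨s, rfl⟩ := h2
      exact ⟨s, (h1 s).1 h3⟩
  · rintro ⟨s, hs⟩
    exact .disj _ _ (some (s, Sum.inl 0)) hg ⟨s, rfl⟩ ((h1 s).2 hs)

theorem card_ui [Fintype S] :
    Fintype.card (UI V S) = Fintype.card S * (2 * Fintype.card V + 1) + 1 := by
  rw [Fintype.card_option, Fintype.card_prod, Fintype.card_sum, Fintype.card_fin]
  ring

end Pool.Agent.U20.DN
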