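import Pool.Agent.U20.DN.Defs

/-!
# Decomposable circuits with another alphabet
-/

set_option autoImplicit false

namespace Pool.Agent.U20.DN

variable {V Al Al' I : Type}

/-- The same gate for another alphabet. -/
def Gate.remap (φ : Al' → Al) : Gate V Al I → Gate V Al' I
  | .leaf v P => .leaf v {a | φ a ∈ P}
  | .triv => .triv
  | .conj i j => .conj i j
  | .disj D => .disj D

theorem remap_leaf {φ : Al' → Al} {γ : Gate V Al I} {v : V} {P : Set Al'}
    (h : γ.remap φ = .leaf v P) : ∃ P', γ = .leaf v P' ∧ P = {a | φ a ∈ P'} := by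
  cases γ with
  | leaf w Q =>
    have h' : Gate.leaf (I := I) w {a | φ a ∈ Q} = .leaf v P := h
    rw [Gate.leaf.injEq] at h'
    exact ⟨Q, by rw [h'.1], h'.2.symm⟩
  | triv => exact Gate.noConfusion rfl rfl rfl (heq_of_eq h)
  | conj i j => exact absurd (show Gate.conj i j = .leaf v P from h) (by simp)
  | disj D => exact absurd (show Gate.disj D = .leaf v P from h) (by simp)

theorem remap_conj {φ : Al' → Al} {γ : Gate V Al I} {j k : I}
    (h : γ.remap φ = .conj j k) : γ = .conj j k := by
  cases γ with
  | leaf w Q => exact absurd (show Gate.leaf w {a | φ a ∈ Q} = .conj j k from h) (by simp)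
  | triv => exact absurd (show Gate.triv = .conj j k from h) (by simp)
  | conj i j' =>
    have h' : (Gate.conj i j' : Gate V Al' I) = .conj j k := h
    rw [Gate.conj.injEq] at h'
    rw [h'.1, h'.2]
  | disj D => exact absurd (show Gate.disj D = .conj j k from h) (by simp)

theorem remap_disj {φ : Al' → Al} {γ : Gate V Al I} {D : Set I}
    (h : γ.remap φ = .disj D) : γ = .disj D := by
  cases γ with
  | leaf w Q => exact absurd (show Gate.leaf w {a | φ a ∈ Q} = .disj D from h) (by simp)
  | triv => exact absurd (show Gate.triv = .disj D from h) (by simp)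
  | conj i j' => exact absurd (show Gate.conj i j' = .disj D from h) (by simp)
  | disj E =>
    have h' : (Gate.disj E : Gate V Al' I) = .disj D := h
    rw [Gate.disj.injEq] at h'
    rw [h']

theorem remap_triv {φ : Al' → Al} {γ : Gate V Al I}
    (h : γ.remap φ = .triv) : γ = .triv := by
  cases γ with
  | leaf w Q => exact absurd (show Gate.leaf w {a | φ a ∈ Q} = .triv from h) (by simp)
  | triv => rfl
  | conj i j' => exact absurd (show Gate.conj i j' = .triv from h) (by simp)
  | disj E => exact absurd (show Gate.disj E = .triv from h) (by simp)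

theorem remap_acc {φ : Al' → Al} {G : I → Gate V Al I} {x : V → Al'} {i : I} :
    Acc (fun j => (G j).remap φ) x i ↔ Acc G (fun v => φ (x v)) i := by
  constructor
  · intro h
    induction h with
    | leaf i v P h1 h2 =>
      obtain ⟨P', h3, rfl⟩ := remap_leaf h1
      exact .leaf i v P' h3 h2
    | triv i h1 => exact .triv i (remap_triv h1)
    | conj i j k h1 _ _ ih1 ih2 => exact .conj i j k (remap_conj h1) ih1 ih2
    | disj i D j h1 h2 _ ih => exact .disj i D j (remap_disj h1) h2 ih
  · intro h
    induction h with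
    | leaf i v P h1 h2 =>
      exact .leaf i v {a | φ a ∈ P} (by show (G i).remap φ = _; rw [h1]; rfl) h2
    | triv i h1 => exact .triv i (by show (G i).remap φ = _; rw [h1]; rfl)
    | conj i j k h1 _ _ ih1 ih2 =>
      exact .conj i j k (by show (G i).remap φ = _; rw [h1]; rfl) ih1 ih2
    | disj i D j h1 h2 _ ih =>
      exact .disj i D j (by show (G i).remap φ = _; rw [h1]; rfl) h2 ih

theorem remap_child {φ : Al' → Al} {G : I → Gate V Al I} {i j : I}
    (h : Child (fun j => (G j).remap φ) i j) : Child G i j := by
  rcases h with ⟨k, hk⟩ | ⟨k, hk⟩ | ⟨D, hD, hj⟩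
  · exact Or.inl ⟨k, remap_conj hk⟩
  · exact Or.inr (Or.inl ⟨k, remap_conj hk⟩)
  · exact Or.inr (Or.inr ⟨D, remap_disj hD, hj⟩)

theorem remap_below {φ : Al' → Al} {G : I → Gate V Al I} {i j : I}
    (h : Below (fun j => (G j).remap φ) i j) : Below G i j := by
  unfold Below at h
  induction h with
  | refl => exact Relation.ReflTransGen.refl
  | tail _ h2 ih => exact Relation.ReflTransGen.tail ih (remap_child h2)

theorem remap_occurs {φ : Al' → Al} {G : I → Gate V Al I} {i : I} {v : V}
    (h : Occurs (fun j => (G j).remap φ) i v) : Occurs G i v := by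
  obtain ⟨j, P, h1, h2⟩ := h
  obtain ⟨P', h3, -⟩ := remap_leaf h2
  exact ⟨j, P', remap_below h1, h3⟩

theorem remap_decomposable {φ : Al' → Al} {G : I → Gate V Al I} (h : Decomposable G) :
    Decomposable (fun j => (G j).remap φ) := by
  intro i j k hg v hv
  exact h i j k (remap_conj hg) v ⟨remap_occurs hv.1, remap_occurs hv.2⟩

end Pool.Agent.U20.DN
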