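import Mathlib.Data.Fintype.Basic
import Mathlib.Data.Set.Basic
import Mathlib.Logic.Relation

/-!
# Decomposable circuits
-/

set_option autoImplicit false

namespace Pool.Agent.U20.DN

/-- A gate of a circuit with the set of gates `I`; the variables are in `V` and their values are in
the alphabet `Al`. A leaf tests whether the value of a variable lies in a set, the other gates are
constants, conjunctions of two gates and disjunctions of arbitrarily many gates. -/
inductive Gate (V Al I : Type) : Type
  | leaf (v : V) (P : Set Al)
  | triv
  | conj (i j : I)
  | disj (D : Set I)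

variable {V Al I : Type}

/-- The gate `i` accepts the input `x`: there is a proof tree. -/
inductive Acc (G : I → Gate V Al I) (x : V → Al) : I → Prop
  | leaf (i : I) (v : V) (P : Set Al) : G i = .leaf v P → x v ∈ P → Acc G x i
  | triv (i : I) : G i = .triv → Acc G x i
  | conj (i j k : I) : G i = .conj j k → Acc G x j → Acc G x k → Acc G x i
  | disj (i : I) (D : Set I) (j : I) : G i = .disj D → j ∈ D → Acc G x j → Acc G x i

/-- `j` is a child of `i`. -/
def Child (G : I → Gate V Al I) (i j : I) : Prop :=
  (∃ k, G i = .conj j k) ∨ (∃ k, G i = .conj k j) ∨ ∃ D : Set I, G i = .disj D ∧ j ∈ D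

/-- `j` is reached from `i`. -/
def Below (G : I → Gate V Al I) (i j : I) : Prop := Relation.ReflTransGen (Child G) i j

/-- The variable `v` occurs below the gate `i`. -/
def Occurs (G : I → Gate V Al I) (i : I) (v : V) : Prop :=
  ∃ (j : I) (P : Set Al), Below G i j ∧ G j = .leaf v P

/-- The circuit is decomposable: no variable occurs below both gates of a conjunction. -/
def Decomposable (G : I → Gate V Al I) : Prop :=
  ∀ i j k : I, G i = .conj j k → ∀ v : V, ¬ (Occurs G j v ∧ Occurs G k v)

end Pool.Agent.U20.DN
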