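import Pool.Agent.U20.DN.Hole

/-!
# Balanced products in decomposable circuits
-/

set_option autoImplicit false

open Finset

namespace Pool.Agent.U20.DN

variable {V Al I : Type} [Fintype V]

open Classical in
/-- The variables below a gate. -/
noncomputable def vrs (G : I → Gate V Al I) (i : I) : Finset V := univ.filter (Occurs G i)

theorem mem_vrs {G : I → Gate V Al I} {i : I} {v : V} : v ∈ vrs G i ↔ Occurs G i v := by
  classical
  unfold vrs
  rw [mem_filter]
  exact and_iff_right (mem_univ v)

theorem vrs_child {G : I → Gate V Al I} {i j : I} (h : Child G i j) : vrs G j ⊆ vrs G i :=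
  fun _ hv => mem_vrs.2 (occurs_child h (mem_vrs.1 hv))

theorem vrs_below {G : I → Gate V Al I} {i j : I} (h : Below G i j) : vrs G j ⊆ vrs G i :=
  fun _ hv => mem_vrs.2 (occurs_below h (mem_vrs.1 hv))

theorem vrs_hole {G : I → Gate V Al I} {u i : I} : vrs (hole G u) i ⊆ vrs G i :=
  fun _ hv => mem_vrs.2 (occurs_hole (mem_vrs.1 hv))

omit [Fintype V] in
theorem occurs_cases {G : I → Gate V Al I} {i : I} {v : V} (h : Occurs G i v) :
    (∃ P, G i = .leaf v P) ∨ ∃ c, Child G i c ∧ Occurs G c v := by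
  obtain ⟨j, P, hj, hP⟩ := h
  rcases Relation.ReflTransGen.cases_head hj with h | ⟨c, h1, h2⟩
  · left
    rw [h]
    exact ⟨P, hP⟩
  · exact Or.inr ⟨c, h1, j, P, h2, hP⟩

theorem vrs_leaf {G : I → Gate V Al I} {i : I} {v : V} {P : Set Al} (h : G i = .leaf v P) :
    vrs G i ⊆ {v} := by
  intro w hw
  rw [mem_vrs] at hw
  rw [mem_singleton]
  rcases occurs_cases hw with ⟨P', hP'⟩ | ⟨c, hc, -⟩
  · rw [h] at hP'
    simp only [Gate.leaf.injEq] at hP'
    exact hP'.1.symm
  · rcases hc with ⟨k, hk⟩ | ⟨k, hk⟩ | ⟨D, hD, -⟩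
    · rw [h] at hk; exact absurd hk (by simp)
    · rw [h] at hk; exact absurd hk (by simp)
    · rw [h] at hD; exact absurd hD (by simp)

theorem vrs_triv {G : I → Gate V Al I} {i : I} (h : G i = .triv) : vrs G i = ∅ := by
  rw [eq_empty_iff_forall_notMem]
  intro w hw
  rw [mem_vrs] at hw
  rcases occurs_cases hw with ⟨P', hP'⟩ | ⟨c, hc, -⟩
  · rw [h] at hP'; exact absurd hP' (by simp)
  · rcases hc with ⟨k, hk⟩ | ⟨k, hk⟩ | ⟨D, hD, -⟩
    · rw [h] at hk; exact absurd hk (by simp)
    · rw [h] at hk; exact absurd hk (by simp)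
    · rw [h] at hD; exact absurd hD (by simp)

theorem card_vrs_conj {G : I → Gate V Al I} {i j k : I} (h : G i = .conj j k) :
    (vrs G i).card ≤ (vrs G j).card + (vrs G k).card := by
  classical
  refine le_trans (card_le_card fun v hv => ?_) (card_union_le _ _)
  rw [mem_union, mem_vrs, mem_vrs]
  rcases occurs_cases (mem_vrs.1 hv) with ⟨P', hP'⟩ | ⟨c, hc, hv'⟩
  · rw [h] at hP'; exact absurd hP' (by simp)
  · rcases hc with ⟨k', hk⟩ | ⟨k', hk⟩ | ⟨D, hD, -⟩
    · rw [h] at hk
      simp only [Gate.conj.injEq] at hk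
      rw [hk.1]
      exact Or.inl hv'
    · rw [h] at hk
      simp only [Gate.conj.injEq] at hk
      rw [hk.2]
      exact Or.inr hv'
    · rw [h] at hD; exact absurd hD (by simp)

/-- The two gates of a cut: `u` is a gate with many variables, `w` is the same gate or an input of
it, with few variables. -/
def IsCut (G : I → Gate V Al I) (θ : ℕ) (x : V → Al) (i u w : I) : Prop :=
  (w = u ∨ ∃ D : Set I, G u = .disj D ∧ w ∈ D) ∧ Acc G x w ∧ (vrs G w).card ≤ 2 * θ ∧
    θ < (vrs G u).card ∧ Acc (hole G u) x i ∧ Below G i u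

theorem not_below_sibling {G : I → Gate V Al I} (hd : Decomposable G) {i j k u : I}
    (h : G i = .conj j k ∨ G i = .conj k j) (hj : Below G j u) (hu : (vrs G u).Nonempty) :
    ¬ Below G k u := by
  intro hk
  obtain ⟨v, hv⟩ := hu
  rcases h with h | h
  · exact hd i j k h v ⟨mem_vrs.1 (vrs_below hj hv), mem_vrs.1 (vrs_below hk hv)⟩
  · exact hd i k j h v ⟨mem_vrs.1 (vrs_below hk hv), mem_vrs.1 (vrs_below hj hv)⟩

/-- The step at a conjunction. -/
theorem cut_conj {G : I → Gate V Al I} (hd : Decomposable G) {θ : ℕ} {x : V → Al} {i j k : I}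
    (h : G i = .conj j k ∨ G i = .conj k j) (hj : Acc G x j) (hk : Acc G x k)
    (ih : 2 * θ < (vrs G j).card → ∃ u w, IsCut G θ x j u w) (hjθ : θ < (vrs G j).card) :
    ∃ u w, IsCut G θ x i u w := by
  have hc : Child G i j := h.elim (fun h => Or.inl ⟨k, h⟩) fun h => Or.inr (Or.inl ⟨k, h⟩)
  have key : ∀ u, Below G j u → θ < (vrs G u).card → Acc (hole G u) x j →
      Acc (hole G u) x i := by
    intro u hju hu hacc
    by_cases hi : i = u
    · rw [hi]
      exact .triv u hole_self
    · have hnb := not_below_sibling hd h hju (card_pos.1 (by omega))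
      rcases h with h | h
      · exact .conj i j k (hole_eq_conj hi h) hacc (acc_hole hk hnb)
      · exact .conj i k j (hole_eq_conj hi h) (acc_hole hk hnb) hacc
  rcases Nat.lt_or_ge (2 * θ) (vrs G j).card with h2 | h2
  · obtain ⟨u, w, a1, a2, a3, a4, a5, a6⟩ := ih h2
    exact ⟨u, w, a1, a2, a3, a4, key u a6 a4 a5, Relation.ReflTransGen.head hc a6⟩
  · exact ⟨j, j, Or.inl rfl, hj, h2, hjθ,
      key j Relation.ReflTransGen.refl hjθ (.triv j hole_self),
      Relation.ReflTransGen.single hc⟩

/-- There is a cut. -/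
theorem exists_cut {G : I → Gate V Al I} (hd : Decomposable G) {θ : ℕ} (hθ : 1 ≤ θ) {x : V → Al}
    {i : I} (h : Acc G x i) : 2 * θ < (vrs G i).card → ∃ u w, IsCut G θ x i u w := by
  induction h with
  | leaf i v P hG hx =>
    intro hc
    have := card_le_card (vrs_leaf hG)
    rw [card_singleton] at this
    omega
  | triv i hG =>
    intro hc
    rw [vrs_triv hG, card_empty] at hc
    omega
  | conj i j k hG hj hk ihj ihk =>
    intro hc
    have h1 := card_vrs_conj hG
    rcases Nat.lt_or_ge θ (vrs G j).card with h2 | h2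
    · exact cut_conj hd (Or.inl hG) hj hk ihj h2
    · exact cut_conj hd (Or.inr hG) hk hj ihk (by omega)
  | disj i D j hG hD hj ih =>
    intro hc
    have hch : Child G i j := Or.inr (Or.inr ⟨D, hG, hD⟩)
    rcases Nat.lt_or_ge (2 * θ) (vrs G j).card with h2 | h2
    · obtain ⟨u, w, a1, a2, a3, a4, a5, a6⟩ := ih h2
      refine ⟨u, w, a1, a2, a3, a4, ?_, Relation.ReflTransGen.head hch a6⟩
      by_cases hi : i = u
      · rw [hi]
        exact .triv u hole_self
      · exact .disj i _ j (hole_eq_disj hi hG (Relation.ReflTransGen.head hch a6)) ⟨hD, a6⟩ a5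
    · exact ⟨i, j, Or.inr ⟨D, hG, hD⟩, hj, h2, by omega, .triv i hole_self,
        Relation.ReflTransGen.refl⟩

/-- A popular value. -/
theorem exists_popular {U C : Type} [Fintype C] (Y : Finset U) (f : U → C) [DecidableEq C]
    (hY : Y.Nonempty) : ∃ c, Y.card ≤ Fintype.card C * (Y.filter (fun A => f A = c)).card := by
  by_contra hcon
  push Not at hcon
  have h1 : Y.card = ∑ c : C, (Y.filter (fun A => f A = c)).card :=
    card_eq_sum_card_fiberwise fun A _ => mem_coe.2 (mem_univ (f A))
  have hC : Nonempty C := ⟨f hY.choose⟩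
  have h2 : ∑ _c : C, Fintype.card C * Y.card ≥ 0 := Nat.zero_le _
  have h3 : ∑ c : C, Fintype.card C * (Y.filter (fun A => f A = c)).card < ∑ _c : C, Y.card :=
    sum_lt_sum_of_nonempty univ_nonempty fun c _ => hcon c
  rw [← mul_sum, ← h1, sum_const, card_univ, smul_eq_mul] at h3
  exact lt_irrefl _ h3

/-- The decomposition: many of the accepted inputs are in a product set of accepted inputs. -/
theorem decomp [Fintype I] {θ : ℕ} (hθ : 1 ≤ θ) {U : Type} (z : U → V → Al) (r : I) :
    ∀ (n : ℕ) (G : I → Gate V Al I), Decomposable G → (vrs G r).card ≤ n →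
      ∀ Y : Finset U, Y.Nonempty → (∀ A ∈ Y, Acc G (z A) r) →
      ∃ (Y' : Finset U) (L : List (Finset V)), Y' ⊆ Y ∧ Y'.Nonempty ∧
        Y.card ≤ (Fintype.card I ^ 2) ^ L.length * Y'.card ∧ L.Pairwise Disjoint ∧
        (∀ P ∈ L, P.card ≤ 2 * θ ∧ P ⊆ vrs G r) ∧
        θ * L.length ≤ 2 * (vrs G r).card + θ ∧
        ∀ x : V → Al, (∀ P ∈ L, ∃ A ∈ Y', ∀ v ∈ P, z A v = x v) → Acc G x r := by
  classical
  intro n
  induction n using Nat.strong_induction_on with
  | _ n ih =>
    intro G hd hn Y hY hacc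
    have hI1 : 1 ≤ Fintype.card I ^ 2 := Nat.pow_pos (Fintype.card_pos_iff.2 ⟨r⟩)
    rcases Nat.lt_or_ge (2 * θ) (vrs G r).card with h2 | h2
    · -- choose a cut for each input
      have h3 : ∀ A : U, ∃ c : I × I, A ∈ Y → IsCut G θ (z A) r c.1 c.2 := by
        intro A
        by_cases hA : A ∈ Y
        · obtain ⟨u, w, h⟩ := exists_cut hd hθ (hacc A hA) h2
          exact ⟨(u, w), fun _ => h⟩
        · exact ⟨(r, r), fun h => absurd h hA⟩
      choose c hc using h3
      obtain ⟨⟨u, w⟩, huw⟩ := exists_popular Y c hY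
      obtain ⟨Y1, hY1⟩ : ∃ Y1, Y1 = Y.filter (fun A => c A = (u, w)) := ⟨_, rfl⟩
      rw [← hY1, Fintype.card_prod] at huw
      have hcut : ∀ A ∈ Y1, IsCut G θ (z A) r u w := by
        intro A hA
        rw [hY1, mem_filter] at hA
        have := hc A hA.1
        rw [hA.2] at this
        exact this
      have hY1n : Y1.Nonempty := by
        rw [← card_pos]
        rcases Nat.eq_zero_or_pos Y1.card with h0 | h0
        · rw [h0, mul_zero] at huw
          have := card_pos.2 hY
          omega
        · exact h0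
      obtain ⟨A₀, hA₀⟩ := hY1n
      obtain ⟨b1, b2, b3, b4, b5, b6⟩ := hcut A₀ hA₀
      have hdisj : Disjoint (vrs (hole G u) r) (vrs G u) := by
        rw [disjoint_left]
        intro v hv hv'
        exact disjoint_hole hd b6 (mem_vrs.1 hv) (mem_vrs.1 hv')
      have hsize : (vrs (hole G u) r).card + (vrs G u).card ≤ (vrs G r).card := by
        rw [← card_union_of_disjoint hdisj]
        exact card_le_card (union_subset vrs_hole (vrs_below b6))
      have hwu : vrs G w ⊆ vrs G u := by
        rcases b1 with rfl | ⟨D, hD, hwD⟩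
        · exact subset_rfl
        · exact vrs_child (Or.inr (Or.inr ⟨D, hD, hwD⟩))
      obtain ⟨Y', L, c1, c2, c3, c4, c5, c6, c7⟩ := ih (vrs (hole G u) r).card (by omega)
        (hole G u) (decomposable_hole hd) le_rfl Y1 ⟨A₀, hA₀⟩
        (fun A hA => (hcut A hA).2.2.2.2.1)
      refine ⟨Y', vrs G w :: L, ?_, c2, ?_, ?_, ?_, ?_, ?_⟩
      · refine c1.trans ?_
        rw [hY1]
        exact filter_subset _ _
      · rw [List.length_cons, pow_succ]
        calc Y.card ≤ Fintype.card I * Fintype.card I * Y1.card := huw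
          _ ≤ Fintype.card I * Fintype.card I * ((Fintype.card I ^ 2) ^ L.length * Y'.card) :=
              Nat.mul_le_mul_left _ c3
          _ = _ := by ring
      · rw [List.pairwise_cons]
        refine ⟨fun P hP => ?_, c4⟩
        exact (disjoint_of_subset_right hwu (disjoint_of_subset_left (c5 P hP).2 hdisj)).symm
      · intro P hP
        rcases List.mem_cons.1 hP with rfl | h
        · exact ⟨b3, hwu.trans (vrs_below b6)⟩
        · exact ⟨(c5 P h).1, (c5 P h).2.trans vrs_hole⟩
      · rw [List.length_cons, mul_add, mul_one]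
        omega
      · intro x hx
        obtain ⟨A, hA, hAx⟩ := hx _ List.mem_cons_self
        have hw : Acc G x w := acc_local (hcut A (c1 hA)).2.1
          fun v hv => hAx v (mem_vrs.2 hv)
        have hu : Acc G x u := by
          rcases b1 with h | ⟨D, hD, hwD⟩
          · rw [← h]
            exact hw
          · exact .disj u D w hD hwD hw
        exact plug (c7 x fun P hP => hx P (List.mem_cons_of_mem _ hP)) hu
    · refine ⟨Y, [vrs G r], subset_rfl, hY, ?_, List.pairwise_singleton _ _, ?_, ?_, ?_⟩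
      · rw [List.length_singleton, pow_one]
        exact Nat.le_mul_of_pos_left _ hI1
      · intro P hP
        rw [List.mem_singleton] at hP
        rw [hP]
        exact ⟨h2, subset_rfl⟩
      · rw [List.length_singleton]
        omega
      · intro x hx
        obtain ⟨A, hA, hAx⟩ := hx _ (List.mem_singleton.2 rfl)
        exact acc_local (hacc A hA) fun v hv => hAx v (mem_vrs.2 hv)

end Pool.Agent.U20.DN
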