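import Pool.Agent.U20.DN.Defs
import Mathlib.Tactic

/-!
# Decomposable circuits with a hole
-/

set_option autoImplicit false

open Finset

namespace Pool.Agent.U20.DN

variable {V Al I : Type}

theorem occurs_child {G : I → Gate V Al I} {i j : I} (h : Child G i j) {v : V}
    (hv : Occurs G j v) : Occurs G i v := by
  obtain ⟨k, P, hk, hP⟩ := hv
  exact ⟨k, P, Relation.ReflTransGen.head h hk, hP⟩

theorem occurs_below {G : I → Gate V Al I} {i j : I} (h : Below G i j) {v : V}
    (hv : Occurs G j v) : Occurs G i v := by
  obtain ⟨k, P, hk, hP⟩ := hv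
  exact ⟨k, P, Relation.ReflTransGen.trans h hk, hP⟩

/-- Acceptance depends only on the variables which occur. -/
theorem acc_local {G : I → Gate V Al I} {x y : V → Al} {i : I} (h : Acc G x i) :
    (∀ v, Occurs G i v → x v = y v) → Acc G y i := by
  induction h with
  | leaf i v P hG hx =>
    intro h
    refine .leaf i v P hG ?_
    rw [← h v ⟨i, P, Relation.ReflTransGen.refl, hG⟩]
    exact hx
  | triv i hG => exact fun _ => .triv i hG
  | conj i j k hG _ _ hj hk =>
    intro h
    exact .conj i j k hG (hj fun v hv => h v (occurs_child (Or.inl ⟨k, hG⟩) hv))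
      (hk fun v hv => h v (occurs_child (Or.inr (Or.inl ⟨j, hG⟩)) hv))
  | disj i D j hG hD _ hj =>
    intro h
    exact .disj i D j hG hD (hj fun v hv => h v (occurs_child (Or.inr (Or.inr ⟨D, hG, hD⟩)) hv))

open Classical in
/-- The circuit with a hole at the gate `u`: only proof trees through `u` are considered, and they
end there. -/
noncomputable def hole (G : I → Gate V Al I) (u i : I) : Gate V Al I :=
  if i = u then .triv else
    match G i with
    | .disj D => if Below G i u then .disj {j | j ∈ D ∧ Below G j u} else .disj D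
    | g => g

variable {G : I → Gate V Al I} {u : I}

theorem hole_self : hole G u u = .triv := if_pos rfl

theorem hole_leaf {i : I} {v : V} {P : Set Al} (h : hole G u i = .leaf v P) :
    i ≠ u ∧ G i = .leaf v P := by
  have h1 : i ≠ u := by
    rintro rfl
    rw [hole_self] at h
    exact absurd h (by simp)
  unfold hole at h
  rw [if_neg h1] at h
  refine ⟨h1, ?_⟩
  cases hG : G i with
  | leaf v' P' => rw [hG] at h; exact h
  | triv => rw [hG] at h; exact absurd h (by simp)
  | conj a b => rw [hG] at h; exact absurd h (by simp)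
  | disj D =>
    rw [hG] at h
    dsimp only at h
    split_ifs at h

theorem hole_conj {i j k : I} (h : hole G u i = .conj j k) : i ≠ u ∧ G i = .conj j k := by
  have h1 : i ≠ u := by
    rintro rfl
    rw [hole_self] at h
    exact absurd h (by simp)
  unfold hole at h
  rw [if_neg h1] at h
  refine ⟨h1, ?_⟩
  cases hG : G i with
  | leaf v' P' => rw [hG] at h; exact absurd h (by simp)
  | triv => rw [hG] at h; exact absurd h (by simp)
  | conj a b => rw [hG] at h; exact h
  | disj D =>
    rw [hG] at h
    dsimp only at h
    split_ifs at h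

theorem hole_disj {i : I} {D' : Set I} (h : hole G u i = .disj D') :
    i ≠ u ∧ ∃ D, G i = .disj D ∧ ((Below G i u ∧ D' = {j | j ∈ D ∧ Below G j u}) ∨
      (¬ Below G i u ∧ D' = D)) := by
  have h1 : i ≠ u := by
    rintro rfl
    rw [hole_self] at h
    exact absurd h (by simp)
  unfold hole at h
  rw [if_neg h1] at h
  refine ⟨h1, ?_⟩
  cases hG : G i with
  | leaf v' P' => rw [hG] at h; exact absurd h (by simp)
  | triv => rw [hG] at h; exact absurd h (by simp)
  | conj a b => rw [hG] at h; exact absurd h (by simp)
  | disj D =>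
    rw [hG] at h
    dsimp only at h
    refine ⟨D, rfl, ?_⟩
    split_ifs at h with h2
    · exact Or.inl ⟨h2, by simpa using h.symm⟩
    · exact Or.inr ⟨h2, by simpa using h.symm⟩

theorem hole_eq_leaf {i : I} {v : V} {P : Set Al} (hi : i ≠ u) (h : G i = .leaf v P) :
    hole G u i = .leaf v P := by
  unfold hole
  rw [if_neg hi, h]

theorem hole_eq_triv {i : I} (h : G i = .triv) : hole G u i = .triv := by
  unfold hole
  by_cases hi : i = u
  · rw [if_pos hi]
  · rw [if_neg hi, h]

theorem hole_eq_conj {i j k : I} (hi : i ≠ u) (h : G i = .conj j k) :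
    hole G u i = .conj j k := by
  unfold hole
  rw [if_neg hi, h]

theorem hole_eq_disj {i : I} {D : Set I} (hi : i ≠ u) (h : G i = .disj D) (hb : Below G i u) :
    hole G u i = .disj {j | j ∈ D ∧ Below G j u} := by
  unfold hole
  rw [if_neg hi, h]
  exact if_pos hb

theorem hole_eq_disj' {i : I} {D : Set I} (hi : i ≠ u) (h : G i = .disj D)
    (hb : ¬ Below G i u) : hole G u i = .disj D := by
  unfold hole
  rw [if_neg hi, h]
  exact if_neg hb

theorem child_hole {i j : I} (h : Child (hole G u) i j) : Child G i j := by
  rcases h with ⟨k, hk⟩ | ⟨k, hk⟩ | ⟨D, hD, hj⟩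
  · exact Or.inl ⟨k, (hole_conj hk).2⟩
  · exact Or.inr (Or.inl ⟨k, (hole_conj hk).2⟩)
  · obtain ⟨-, D', hD', h | h⟩ := hole_disj hD
    · rw [h.2] at hj
      exact Or.inr (Or.inr ⟨D', hD', hj.1⟩)
    · rw [h.2] at hj
      exact Or.inr (Or.inr ⟨D', hD', hj⟩)

theorem below_hole {i j : I} (h : Below (hole G u) i j) : Below G i j := by
  induction h with
  | refl => exact Relation.ReflTransGen.refl
  | tail _ hc ih => exact Relation.ReflTransGen.tail ih (child_hole hc)

theorem occurs_hole {i : I} {v : V} (h : Occurs (hole G u) i v) : Occurs G i v := by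
  obtain ⟨j, P, hj, hP⟩ := h
  exact ⟨j, P, below_hole hj, (hole_leaf hP).2⟩

theorem decomposable_hole (h : Decomposable G) : Decomposable (hole G u) := by
  intro i j k hi v hv
  exact h i j k (hole_conj hi).2 v ⟨occurs_hole hv.1, occurs_hole hv.2⟩

/-- Filling the hole. -/
theorem plug {x : V → Al} {i : I} (h : Acc (hole G u) x i) (hu : Acc G x u) : Acc G x i := by
  induction h with
  | leaf i v P hG hx => exact .leaf i v P (hole_leaf hG).2 hx
  | triv i hG =>
    by_cases hi : i = u
    · rw [hi]; exact hu
    · refine .triv i ?_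
      unfold hole at hG
      rw [if_neg hi] at hG
      cases hG' : G i with
      | leaf v' P' => rw [hG'] at hG; exact absurd hG (by simp)
      | triv => rfl
      | conj a b => rw [hG'] at hG; exact absurd hG (by simp)
      | disj D =>
        rw [hG'] at hG
        dsimp only at hG
        split_ifs at hG
  | conj i j k hG _ _ hj hk => exact .conj i j k (hole_conj hG).2 hj hk
  | disj i D j hG hD _ hj =>
    obtain ⟨-, D', hD', h | h⟩ := hole_disj hG
    · rw [h.2] at hD
      exact .disj i D' j hD' hD.1 hj
    · rw [h.2] at hD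
      exact .disj i D' j hD' hD hj

theorem not_below_child {i j : I} (h : ¬ Below G i u) (hc : Child G i j) : ¬ Below G j u :=
  fun h2 => h (Relation.ReflTransGen.head hc h2)

/-- Nothing changes at the gates which are not above the hole. -/
theorem acc_hole {x : V → Al} {i : I} (h : Acc G x i) : ¬ Below G i u → Acc (hole G u) x i := by
  induction h with
  | leaf i v P hG hx =>
    intro hb
    have hi : i ≠ u := by
      rintro rfl
      exact hb Relation.ReflTransGen.refl
    exact .leaf i v P (hole_eq_leaf hi hG) hx
  | triv i hG => exact fun _ => .triv i (hole_eq_triv hG)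
  | conj i j k hG _ _ hj hk =>
    intro hb
    have hi : i ≠ u := by
      rintro rfl
      exact hb Relation.ReflTransGen.refl
    exact .conj i j k (hole_eq_conj hi hG) (hj (not_below_child hb (Or.inl ⟨k, hG⟩)))
      (hk (not_below_child hb (Or.inr (Or.inl ⟨j, hG⟩))))
  | disj i D j hG hD _ hj =>
    intro hb
    have hi : i ≠ u := by
      rintro rfl
      exact hb Relation.ReflTransGen.refl
    exact .disj i D j (hole_eq_disj' hi hG hb) hD
      (hj (not_below_child hb (Or.inr (Or.inr ⟨D, hG, hD⟩))))

/-- A proper path starts with a child. -/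
theorem below_cases {i : I} (h : Below G i u) : i = u ∨ ∃ c, Child G i c ∧ Below G c u := by
  rcases Relation.ReflTransGen.cases_head h with h | ⟨c, h1, h2⟩
  · exact Or.inl h
  · exact Or.inr ⟨c, h1, h2⟩

/-- The variables below the hole do not occur any more. -/
theorem disjoint_hole (hd : Decomposable G) {i : I} (hb : Below G i u) {v : V}
    (h1 : Occurs (hole G u) i v) (h2 : Occurs G u v) : False := by
  obtain ⟨j, P, hj, hP⟩ := h1
  obtain ⟨hju, hGj⟩ := hole_leaf hP
  revert hb
  induction hj using Relation.ReflTransGen.head_induction_on with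
  | refl =>
    intro hb
    rcases below_cases hb with h | ⟨c, hc, -⟩
    · exact hju h
    · rcases hc with ⟨k, hk⟩ | ⟨k, hk⟩ | ⟨D, hD, -⟩
      · rw [hGj] at hk; exact absurd hk (by simp)
      · rw [hGj] at hk; exact absurd hk (by simp)
      · rw [hGj] at hD; exact absurd hD (by simp)
  | head hc hcj ih =>
    rename_i a c
    intro hb
    by_cases hcb : Below G c u
    · exact ih hcb
    · have hvc : Occurs G c v := ⟨j, P, below_hole hcj, hGj⟩
      rcases hc with ⟨k, hk⟩ | ⟨k, hk⟩ | ⟨D, hD, hcD⟩
      · obtain ⟨hau, hGa⟩ := hole_conj hk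
        rcases below_cases hb with h | ⟨c', hc', hb'⟩
        · exact hau h
        · have hc2 : c' = c ∨ c' = k := by
            rcases hc' with ⟨k', hk'⟩ | ⟨k', hk'⟩ | ⟨D, hD, -⟩
            · rw [hGa] at hk'; simp only [Gate.conj.injEq] at hk'; exact Or.inl hk'.1.symm
            · rw [hGa] at hk'; simp only [Gate.conj.injEq] at hk'; exact Or.inr hk'.2.symm
            · rw [hGa] at hD; exact absurd hD (by simp)
          rcases hc2 with rfl | rfl
          · exact hcb hb'
          · exact hd a c c' hGa v ⟨hvc, occurs_below hb' h2⟩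
      · obtain ⟨hau, hGa⟩ := hole_conj hk
        rcases below_cases hb with h | ⟨c', hc', hb'⟩
        · exact hau h
        · have hc2 : c' = k ∨ c' = c := by
            rcases hc' with ⟨k', hk'⟩ | ⟨k', hk'⟩ | ⟨D, hD, -⟩
            · rw [hGa] at hk'; simp only [Gate.conj.injEq] at hk'; exact Or.inl hk'.1.symm
            · rw [hGa] at hk'; simp only [Gate.conj.injEq] at hk'; exact Or.inr hk'.2.symm
            · rw [hGa] at hD; exact absurd hD (by simp)
          rcases hc2 with rfl | rfl
          · exact hd a c' c hGa v ⟨occurs_below hb' h2, hvc⟩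
          · exact hcb hb'
      · obtain ⟨hau, D', hD', h | h⟩ := hole_disj hD
        · rw [h.2] at hcD
          exact hcb hcD.2
        · exact h.1 hb

end Pool.Agent.U20.DN
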